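import Pool.Agent.Helper49.DL.Comp

/-!
Comparison of the interfaces of the planar Ising model (two-state Potts model) with a defect line for
two defect strengths `1 ≤ J ≤ J'`.
-/

open Finset
open scoped Classical

namespace Pool.Agent.Helper49.Reserve.DefectComparison

open Pool.Agent.Helper49.DL

/-- For every `β` with positive spontaneous magnetisation of the homogeneous model and every `t > 0`
there are `r` and `L` such that, for all `1 ≤ J ≤ J'`, all boxes, all columns `x` and heights `K ≥ r`
at distance at least `r` from the boundary of the box, the probability for `J'` that the interface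
has an edge above the site `(x, K)` is at least the probability for `J` that the sites
`(x, K), …, (x, K + L - 1)` lie below the interface, minus `t`. -/
theorem result {β : ℝ} (hβ : 0 ≤ β) (hm : 0 < mag β) {t : ℝ} (ht : 0 < t) :
    ∃ r L : ℕ, ∀ J J' : ℝ, 1 ≤ J → J ≤ J' → ∀ N M x K : ℤ,
      (r : ℤ) ≤ K → K + L + r ≤ M → |x| + r ≤ N →
      avg β (kap J) (box N M) (eta 0) (fun ω => if SegBelow N M x K L ω then 1 else 0) - t ≤
        avg β (kap J') (box N M) (eta 0) (fun ω => if Above N x K ω then 1 else 0) := by
  obtain ⟨r, L, _, h⟩ := interface_compare hβ hm ht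
  exact ⟨r, L, h⟩

end Pool.Agent.Helper49.Reserve.DefectComparison
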