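import Pool.Agent.Helper49.DL.IntFinal

/-!
The interface of the planar Ising model with a defect line `J > 1` leaves every window.
-/

open Finset
open scoped Classical

namespace Pool.Agent.Helper49.Reserve.WindowEscape

open Pool.Agent.Helper49.DL

/-- For every `β > β_c` and every `J > 1`: the interface `Γ` of the Dobrushin measure does not meet a
fixed window with probability tending to one, and the window is then below `Γ` or above `Γ` with
probability tending to one half each. -/
theorem result {β₁ β J : ℝ} (h0 : 0 ≤ β₁) (h : β₁ < β) (hm : 0 < mag β₁) (hJ : 1 < J)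
    {K : ℤ} (hK : 1 ≤ K) {t : ℝ} (ht : 0 < t) : ∃ n : ℤ, ∀ N M : ℤ, n ≤ N → n ≤ M →
      avg β (kap J) (box N M) (eta 0) (fun ω => if Meets N K ω then 1 else 0) ≤ t ∧
      1 / 2 - t ≤ avg β (kap J) (box N M) (eta 0) (fun ω => if WinBelow N M K ω then 1 else 0) ∧
      1 / 2 - t ≤ avg β (kap J) (box N M) (eta 0) (fun ω => if WinAbove N M K ω then 1 else 0) := by
  obtain ⟨n1, hn1⟩ := window_small h0 h hm hJ (K := K) (by omega) ht
  obtain ⟨n2, hn2⟩ := window_side h0 h hm hJ hK ht
  refine ⟨max n1 n2, fun N M hN hM => ⟨?_, ?_⟩⟩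
  · exact hn1 N M ((le_max_left _ _).trans hN) ((le_max_left _ _).trans hM)
  · exact hn2 N M ((le_max_right _ _).trans hN) ((le_max_right _ _).trans hM)

end Pool.Agent.Helper49.Reserve.WindowEscape
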